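import Mathlib
import Pool.Agent.X163.Pyramid

/-!
# The Newton covering number of a right pyramid over a cube depends on the height

In every dimension `d = m + 1 ≥ 2`: all sufficiently tall pyramids have Newton covering number `2`,
while for `h = √(3 m) / 2` the apex and two opposite vertices of the base are the vertices of an
equilateral triangle whose side is the diameter, so that at least three copies are needed.
-/

set_option autoImplicit false

namespace Pool.Agent.Results.MP_90eaab_co.HeightDependence

open Pool.Agent.Helper2.NewtonCover (Covers E newton covers_newton)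
open Pool.Agent.X163.Pyramid

theorem result : ∀ m : ℕ, 1 ≤ m →
    (∃ h₀ : ℝ, 0 < h₀ ∧ ∀ h : ℝ, h₀ ≤ h →
      IsLeast {n : ℕ | Covers (pyramid m h) n} 2 ∧ newton (pyramid m h) = 2) ∧
    0 < Real.sqrt (3 * m) / 2 ∧
    IsLeast {n : ℕ | Covers (pyramid m (Real.sqrt (3 * m) / 2)) n}
      (newton (pyramid m (Real.sqrt (3 * m) / 2))) ∧
    3 ≤ newton (pyramid m (Real.sqrt (3 * m) / 2)) := by
  intro m hm
  obtain ⟨h₀, h1, h2⟩ := newton_tall m
  have hp := hh_pos hm
  refine ⟨⟨h₀, h1, fun h hh => ?_⟩, hp,
    ⟨covers_newton (isBody_pyramid hp), fun n hn => Nat.sInf_le hn⟩, three_le hm⟩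
  have h3 := h2 h hh
  have hpos : 0 < h := by linarith
  have h4 := covers_newton (isBody_pyramid (m := m) hpos)
  rw [h3] at h4
  refine ⟨⟨h4, fun n hn => ?_⟩, h3⟩
  have h6 : newton (pyramid m h) ≤ n := Nat.sInf_le hn
  omega

end Pool.Agent.Results.MP_90eaab_co.HeightDependence
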